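import Pool.Agent.H71.FX.Targets3

/-!
# Row FW: two unary symbols or one symbol of greater arity
-/

set_option autoImplicit false

namespace Pool.Agent.H52.FX

open Pool.Agent.H71.FX Pool.Agent.H71.PF Pool.Agent.H8.PL

theorem pf_FW : T_FW := by
  intro F hF h0
  by_cases h : ∃ i k, 2 ≤ k ∧ F i k
  · exact Or.inr h
  left
  have h1 : ∀ i k, F i k → k = 1 := by
    intro i k hk
    by_contra hne
    rcases Nat.lt_or_ge k 2 with h2 | h2
    · have h3 : k = 0 := by omega
      subst h3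
      exact h0 i hk
    · exact h ⟨i, k, h2, hk⟩
  have h2 : ∀ i, ∃ j k, F j k ∧ ¬ (j = i ∧ k = 1) := by
    intro i
    by_contra hcon
    apply hF
    refine ⟨i, fun j k hjk => ?_⟩
    by_contra hne
    exact hcon ⟨j, k, hjk, hne⟩
  obtain ⟨j, k, hjk, -⟩ := h2 0
  have hk := h1 j k hjk
  subst hk
  obtain ⟨j', k', hjk', hne⟩ := h2 j
  have hk' := h1 j' k' hjk'
  subst hk'
  exact ⟨j', j, fun h3 => hne ⟨h3, rfl⟩, hjk', hjk⟩

end Pool.Agent.H52.FX
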