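import Pool.Agent.H71.FX.Targets3

/-!
# Row XR: sentences without function symbols
-/

set_option autoImplicit false

namespace Pool.Agent.H52.FX

open Pool.Agent.H71.FX Pool.Agent.H71.PF Pool.Agent.H8.PL
open Pool.Agent.H71 (PX.QF PX.Pre PX.Spec PX.QF.Una)

/-- the variable of a term -/
def vn : Tm → ℕ
  | .var x => x
  | .app _ _ => 0

/-- the relational formula -/
def tr : QF → PX.QF
  | .rel i ts => .rel i (ts.map vn)
  | .eq s t => .eq (vn s) (vn t)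
  | .neg φ => .neg (tr φ)
  | .and φ ψ => .and (tr φ) (tr ψ)

theorem vn_val {F : ℕ → ℕ → Prop} (hF : ∀ i k, ¬ F i k) {α : Type} (f : ℕ → List α → α)
    (v : ℕ → α) : ∀ t : Tm, t.Voc F → t.val f v = v (vn t)
  | .var _, _ => rfl
  | .app i _, h => absurd h.1 (hF i _)

theorem vn_lt {F : ℕ → ℕ → Prop} (hF : ∀ i k, ¬ F i k) (k : ℕ) :
    ∀ t : Tm, t.Voc F → t.Vars k → vn t < k
  | .var _, _, h => h
  | .app i _, h, _ => absurd h.1 (hF i _)

theorem tr_vars {F : ℕ → ℕ → Prop} (hF : ∀ i k, ¬ F i k) (r k : ℕ) (ψ : QF) (hv : ψ.Voc F r)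
    (h : ψ.Vars k) : (tr ψ).Vars k := by
  induction ψ with
  | rel i ts =>
    intro x hx
    obtain ⟨t, ht, rfl⟩ := List.mem_map.1 hx
    exact vn_lt hF k t (hv.2.2 t ht) (h t ht)
  | eq s t => exact ⟨vn_lt hF k s hv.1 h.1, vn_lt hF k t hv.2 h.2⟩
  | neg φ ih => exact ih hv h
  | and φ ψ ih1 ih2 => exact ⟨ih1 hv.1 h.1, ih2 hv.2 h.2⟩

theorem tr_una {F : ℕ → ℕ → Prop} (r : ℕ) (hr : r ≤ 1) (ψ : QF) (hv : ψ.Voc F r) :
    (tr ψ).Una := by
  induction ψ with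
  | rel i ts =>
    show (ts.map vn).length = 1
    rw [List.length_map]
    have h1 := hv.1
    have h2 := hv.2.1
    omega
  | eq s t => exact trivial
  | neg φ ih => exact ih hv
  | and φ ψ ih1 ih2 => exact ⟨ih1 hv.1, ih2 hv.2⟩

theorem tr_sat {F : ℕ → ℕ → Prop} (hF : ∀ i k, ¬ F i k) (r : ℕ) {α : Type}
    (f : ℕ → List α → α) (R : ℕ → List α → Prop) (v : ℕ → α) (ψ : QF) (hv : ψ.Voc F r) :
    (tr ψ).Sat R v ↔ ψ.Sat f R v := by
  induction ψ with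
  | rel i ts =>
    show R i ((ts.map vn).map v) ↔ R i (ts.map (Tm.val f v))
    have h1 : (ts.map vn).map v = ts.map (Tm.val f v) := by
      rw [List.map_map]
      exact List.map_congr_left fun t ht => (vn_val hF f v t (hv.2.2 t ht)).symm
    rw [h1]
  | eq s t =>
    show v (vn s) = v (vn t) ↔ s.val f v = t.val f v
    rw [vn_val hF f v s hv.1, vn_val hF f v t hv.2]
  | neg φ ih => exact not_congr (ih hv)
  | and φ ψ ih1 ih2 => exact and_congr (ih1 hv.1) (ih2 hv.2)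

theorem tr_pre {F : ℕ → ℕ → Prop} (hF : ∀ i k, ¬ F i k) (r : ℕ) {α : Type}
    (f : ℕ → List α → α) (R : ℕ → List α → Prop) (ψ : QF) (hv : ψ.Voc F r) :
    ∀ (π : List Bool) (k : ℕ) (v : ℕ → α), PX.Pre R (tr ψ) π k v ↔ Pre f R ψ π k v
  | [], _, v => tr_sat hF r f R v ψ hv
  | true :: π, k, v => forall_congr' fun _ => tr_pre hF r f R ψ hv π (k + 1) _
  | false :: π, k, v => exists_congr fun _ => tr_pre hF r f R ψ hv π (k + 1) _

theorem pf_XR : T_XR := by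
  intro F r ψ hF hv
  refine ⟨tr ψ, fun k h => tr_vars hF r k ψ hv h, fun hr => tr_una r hr ψ hv, fun π => ?_⟩
  ext n
  constructor
  · rintro ⟨hn, R, h⟩
    exact ⟨hn, fun _ _ => ⟨0, hn⟩, R, fun v => (tr_pre hF r _ R ψ hv π 0 v).1 (h v)⟩
  · rintro ⟨hn, f, R, h⟩
    exact ⟨hn, R, fun v => (tr_pre hF r f R ψ hv π 0 v).2 (h v)⟩

end Pool.Agent.H52.FX
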